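import Pool.Agent.H66.MooreB

set_option autoImplicit false

open Set Topology

namespace Pool.Agent.Results.MP_8d6ae8_gt.NotCompletelyRegular

/-- A development of the topological space `X`, indexed by the natural numbers: a sequence of
open covers such that the stars of every point form a neighbourhood base at this point. -/
def IsDevelopment {X : Type} [TopologicalSpace X] (G : ℕ → Set (Set X)) : Prop :=
  (∀ n, ∀ U ∈ G n, IsOpen U) ∧ (∀ n, ⋃₀ G n = univ) ∧
    ∀ (x : X) (U : Set X), IsOpen U → x ∈ U → ∃ n, ⋃₀ {V ∈ G n | x ∈ V} ⊆ U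

/-- A Moore space: a regular Hausdorff space which has a development. -/
def IsMoore (X : Type) [TopologicalSpace X] : Prop :=
  T3Space X ∧ ∃ G : ℕ → Set (Set X), IsDevelopment G

/-- The topology `t₂` witnesses that the topology `t₁` is regularly submetrizable: `t₂` is a
coarser metrizable topology, and every point of a `t₁`-open set `O` lies in a `t₁`-open set
whose `t₂`-closure lies in `O`. -/
def RegularlySubmetrizableBy {X : Type} (t₁ t₂ : TopologicalSpace X) : Prop :=
  (∀ U : Set X, IsOpen[t₂] U → IsOpen[t₁] U) ∧ @TopologicalSpace.MetrizableSpace X t₂ ∧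
    ∀ (p : X) (O : Set X), IsOpen[t₁] O → p ∈ O →
      ∃ D : Set X, IsOpen[t₁] D ∧ p ∈ D ∧ closure[t₂] D ⊆ O

/-- There is a regularly submetrizable Moore space which is not completely regular. More
precisely the coarser metrizable topology is separable (second countable), there are a point
`p` and a closed set `F` not containing `p` such that every continuous real function which is
constant on `F` takes the same value at `p`, and every other point has a countable compact open
neighbourhood. -/
theorem result :
    ∃ (X : Type) (t₁ t₂ : TopologicalSpace X),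
      @IsMoore X t₁ ∧ RegularlySubmetrizableBy t₁ t₂ ∧
      @SecondCountableTopology X t₂ ∧
      ¬ @CompletelyRegularSpace X t₁ ∧
      ∃ (p : X) (F : Set X), IsClosed[t₁] F ∧ p ∉ F ∧
        (∀ f : X → ℝ, Continuous[t₁, _] f → ∀ a : ℝ, (∀ x ∈ F, f x = a) → f p = a) ∧
        (∀ q : X, q ≠ p → ∃ K : Set X, q ∈ K ∧ IsOpen[t₁] K ∧ @IsCompact X t₁ K ∧
          K.Countable) := by
  refine ⟨H66.Moore.X, H66.Moore.T1, H66.Moore.T2, ⟨H66.MooreB.t3_T1, ?_⟩,
    ⟨fun U hU => H66.Moore.T1_le_T2 U hU, H66.Moore.T2_metrizable, H66.MooreB.closure_basis⟩,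
    H66.MooreB.secondCountable_T2, ?_, none, H66.MooreB.F, H66.MooreB.F_closed,
    H66.MooreB.compl_F_mem, H66.MooreB.transmission, ?_⟩
  · exact H66.MooreB.development
  · intro hcr
    let := H66.Moore.T1
    obtain ⟨f, hfc, hf0, hf1⟩ := hcr.completely_regular none _ H66.MooreB.F_closed
      H66.MooreB.compl_F_mem
    have h := H66.MooreB.transmission (fun x => (f x : ℝ)) (continuous_subtype_val.comp hfc) 1
      (fun x hx => by rw [hf1 hx]; rfl)
    change ((f none : unitInterval) : ℝ) = 1 at h
    rw [hf0] at h
    exact zero_ne_one h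
  · intro q hq
    cases q with
    | none => exact (hq rfl).elim
    | some cp =>
      exact ⟨H66.Moore.Nb (some cp) 0, H66.Moore.self_mem_Nb _ _, H66.Moore.Nb_open _ _,
        H66.MooreB.Nb_compact cp.1 cp.2, H66.MooreB.Nb_countable cp.1 cp.2⟩

end Pool.Agent.Results.MP_8d6ae8_gt.NotCompletelyRegular
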